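import Mathlib

set_option autoImplicit false

namespace Pool.Agent.Results.MP_c852bb_co.AllGraphs

open SimpleGraph Finset

/-- `D` is a locating-dominating set of `G`: every vertex outside `D` has a neighbour in `D`, and
distinct vertices outside `D` have different neighbourhoods in `D`. -/
def IsLD {V : Type} (G : SimpleGraph V) (D : Finset V) : Prop :=
  (∀ v, v ∉ D → ∃ u ∈ D, G.Adj v u) ∧
    ∀ u v, u ∉ D → v ∉ D → u ≠ v → {w : V | w ∈ D ∧ G.Adj u w} ≠ {w : V | w ∈ D ∧ G.Adj v w}

/-- `X` and `Y` form an LD-coalition. -/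
def IsCoalition {V : Type} [DecidableEq V] (G : SimpleGraph V) (X Y : Finset V) : Prop :=
  Disjoint X Y ∧ ¬ IsLD G X ∧ ¬ IsLD G Y ∧ IsLD G (X ∪ Y)

/-- `P` is an LDC-partition of the vertex set of `G` (a `Finpartition` has nonempty, pairwise
disjoint parts with union everything). -/
def IsLDC {V : Type} [Fintype V] [DecidableEq V] (G : SimpleGraph V)
    (P : Finpartition (Finset.univ : Finset V)) : Prop :=
  ∀ X ∈ P.parts, ¬ IsLD G X ∧ ∃ Y ∈ P.parts, Y ≠ X ∧ IsCoalition G X Y

/-- `C_L(G)`: the largest number of parts of an LDC-partition (`0` if there is none). -/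
noncomputable def CL {V : Type} [Fintype V] [DecidableEq V] (G : SimpleGraph V) : ℕ :=
  sSup {k : ℕ | ∃ P : Finpartition (Finset.univ : Finset V), IsLDC G P ∧ P.parts.card = k}

theorem IsLD.mono {V : Type} {G : SimpleGraph V} {D D' : Finset V} (h : IsLD G D)
    (hs : D ⊆ D') : IsLD G D' := by
  refine ⟨fun v hv => ?_, fun u v hu hv huv heq => ?_⟩
  · obtain ⟨u, hu, hadj⟩ := h.1 v (fun hh => hv (hs hh))
    exact ⟨u, hs hu, hadj⟩
  · refine h.2 u v (fun hh => hu (hs hh)) (fun hh => hv (hs hh)) huv ?_
    ext w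
    have := Set.ext_iff.1 heq w
    simp only [Set.mem_ofPred_eq] at this ⊢
    constructor
    · rintro ⟨h1, h2⟩; exact ⟨h1, (this.1 ⟨hs h1, h2⟩).2⟩
    · rintro ⟨h1, h2⟩; exact ⟨h1, (this.2 ⟨hs h1, h2⟩).2⟩

theorem single_not {V : Type} [Fintype V] [DecidableEq V] (G : SimpleGraph V)
    (hV : 3 ≤ Fintype.card V) (x : V) : ¬ IsLD G {x} := by
  intro h
  have : ∃ u v : V, u ≠ x ∧ v ≠ x ∧ u ≠ v := by
    have h1 : 2 ≤ (Finset.univ.erase x).card := by
      rw [Finset.card_erase_of_mem (Finset.mem_univ x), Finset.card_univ]; omega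
    obtain ⟨u, hu, v, hv, huv⟩ := Finset.one_lt_card.1 h1
    exact ⟨u, v, Finset.ne_of_mem_erase hu, Finset.ne_of_mem_erase hv, huv⟩
  obtain ⟨u, v, hu, hv, huv⟩ := this
  have hu' : u ∉ ({x} : Finset V) := by simpa using hu
  have hv' : v ∉ ({x} : Finset V) := by simpa using hv
  obtain ⟨a, ha, ha2⟩ := h.1 u hu'
  obtain ⟨b, hb, hb2⟩ := h.1 v hv'
  rw [Finset.mem_singleton] at ha hb
  subst ha; subst hb
  refine h.2 u v hu' hv' huv ?_
  ext w
  simp only [Set.mem_ofPred_eq, Finset.mem_singleton]
  constructor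
  · rintro ⟨rfl, _⟩; exact ⟨rfl, hb2⟩
  · rintro ⟨rfl, _⟩; exact ⟨rfl, ha2⟩

theorem exists_ldc {V : Type} [Fintype V] [DecidableEq V] (G : SimpleGraph V)
    (hV : 3 ≤ Fintype.card V) :
    ∃ P : Finpartition (Finset.univ : Finset V), IsLDC G P ∧ 2 ≤ P.parts.card := by
  classical
  -- a maximal set that is not locating-dominating
  obtain ⟨x0⟩ : Nonempty V := Fintype.card_pos_iff.1 (by omega)
  obtain ⟨A, hA, hmax⟩ := Finset.exists_max_image
    ((Finset.univ : Finset V).powerset.filter (fun D => ¬ IsLD G D)) Finset.card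
    ⟨{x0}, by simp [single_not G hV x0]⟩
  rw [Finset.mem_filter] at hA
  have hAn : ¬ IsLD G A := hA.2
  have hins : ∀ x, x ∉ A → IsLD G (insert x A) := by
    intro x hx
    by_contra hc
    have := hmax (insert x A) (by simp [hc])
    rw [Finset.card_insert_of_notMem hx] at this
    omega
  have hAne : A.Nonempty := by
    rw [Finset.nonempty_iff_ne_empty]
    rintro rfl
    have := hmax {x0} (by simp [single_not G hV x0])
    simp at this
  have huniv : IsLD G Finset.univ :=
    ⟨fun v hv => absurd (Finset.mem_univ v) hv, fun u v hu => absurd (Finset.mem_univ u) hu⟩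
  obtain ⟨y0, hy0⟩ : ∃ y, y ∉ A := by
    by_contra hc
    push Not at hc
    exact hAn (by rwa [Finset.eq_univ_iff_forall.2 hc])
  -- the partition
  let S : Finset (Finset V) := insert A ((Finset.univ \ A).image (fun x => ({x} : Finset V)))
  have memS : ∀ X, X ∈ S ↔ X = A ∨ ∃ x, x ∉ A ∧ X = {x} := by
    intro X
    simp only [S, Finset.mem_insert, Finset.mem_image, Finset.mem_sdiff, Finset.mem_univ, true_and]
    constructor
    · rintro (h | ⟨x, hx, rfl⟩)
      · exact Or.inl h
      · exact Or.inr ⟨x, hx, rfl⟩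
    · rintro (h | ⟨x, hx, rfl⟩)
      · exact Or.inl h
      · exact Or.inr ⟨x, hx, rfl⟩
  have hdisj : ∀ X ∈ S, ∀ Y ∈ S, X ≠ Y → Disjoint X Y := by
    intro X hX Y hY hXY
    rcases (memS X).1 hX with rfl | ⟨x, hx, rfl⟩
    · rcases (memS Y).1 hY with rfl | ⟨y, hy, rfl⟩
      · exact absurd rfl hXY
      · exact Finset.disjoint_singleton_right.2 hy
    · rcases (memS Y).1 hY with rfl | ⟨y, hy, rfl⟩
      · exact Finset.disjoint_singleton_left.2 hx
      · refine Finset.disjoint_singleton.2 ?_
        rintro rfl; exact hXY rfl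
  let P : Finpartition (Finset.univ : Finset V) :=
    { parts := S
      supIndep := by
        rw [Finset.supIndep_iff_pairwiseDisjoint]
        intro X hX Y hY hXY
        exact hdisj X hX Y hY hXY
      sup_parts := by
        ext v
        simp only [Finset.mem_sup, Finset.mem_univ, iff_true]
        by_cases hv : v ∈ A
        · exact ⟨A, (memS A).2 (Or.inl rfl), hv⟩
        · exact ⟨{v}, (memS _).2 (Or.inr ⟨v, hv, rfl⟩), Finset.mem_singleton_self v⟩
      bot_notMem := by
        intro h
        rcases (memS _).1 h with h | ⟨x, _, h⟩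
        · exact hAne.ne_empty h.symm
        · exact Finset.singleton_ne_empty x h.symm }
  have hne : ∀ x, x ∉ A → ({x} : Finset V) ≠ A := by
    rintro x hx rfl
    exact hx (Finset.mem_singleton_self x)
  have hPP : ∀ X, X ∈ P.parts ↔ X = A ∨ ∃ x, x ∉ A ∧ X = {x} := memS
  refine ⟨P, ?_, ?_⟩
  · intro X hX
    rcases (hPP X).1 hX with rfl | ⟨x, hx, rfl⟩
    · refine ⟨hAn, {y0}, (hPP _).2 (Or.inr ⟨y0, hy0, rfl⟩), hne y0 hy0,
        Finset.disjoint_singleton_right.2 hy0, hAn, single_not G hV y0, ?_⟩
      rw [Finset.union_comm, ← Finset.insert_eq]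
      exact hins y0 hy0
    · refine ⟨single_not G hV x, A, (hPP _).2 (Or.inl rfl), (hne x hx).symm,
        Finset.disjoint_singleton_left.2 hx, single_not G hV x, hAn, ?_⟩
      rw [← Finset.insert_eq]
      exact hins x hx
  · have : ({A, {y0}} : Finset (Finset V)) ⊆ P.parts := by
      intro X hX
      rw [Finset.mem_insert, Finset.mem_singleton] at hX
      rcases hX with rfl | rfl
      · exact (hPP _).2 (Or.inl rfl)
      · exact (hPP _).2 (Or.inr ⟨y0, hy0, rfl⟩)
    calc 2 = ({A, {y0}} : Finset (Finset V)).card :=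
          (Finset.card_pair (hne y0 hy0).symm).symm
      _ ≤ P.parts.card := Finset.card_le_card this

theorem CL_bdd {V : Type} [Fintype V] [DecidableEq V] (G : SimpleGraph V) :
    BddAbove {k : ℕ | ∃ P : Finpartition (Finset.univ : Finset V), IsLDC G P ∧ P.parts.card = k} :=
  ⟨Fintype.card V, by
    rintro k ⟨P, _, rfl⟩
    exact P.card_parts_le_card⟩

/-- Every finite simple graph with at least three vertices (connected or not, of any diameter) has
an LDC-partition, so `C_L(G) ≥ 2`; in particular this holds for every connected graph of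
diameter `2`. A connected graph has `C_L(G) ≥ 2` if and only if it has at least three vertices,
i.e. `K_1` and `K_2` are the only connected graphs without an LDC-partition. -/
theorem result :
    (∀ (V : Type) [Fintype V] [DecidableEq V] (G : SimpleGraph V),
      3 ≤ Fintype.card V → 2 ≤ CL G) ∧
    (∀ (V : Type) [Fintype V] [DecidableEq V] (G : SimpleGraph V),
      G.Connected → G.diam = 2 → 2 ≤ CL G) ∧
    (∀ (V : Type) [Fintype V] [DecidableEq V] (G : SimpleGraph V),
      G.Connected → (2 ≤ CL G ↔ 3 ≤ Fintype.card V) ∧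
        ((∃ P : Finpartition (Finset.univ : Finset V), IsLDC G P) ↔ 3 ≤ Fintype.card V)) := by
  have key : ∀ (V : Type) [Fintype V] [DecidableEq V] (G : SimpleGraph V),
      3 ≤ Fintype.card V → 2 ≤ CL G := by
    intro V _ _ G hV
    obtain ⟨P, hP, hc⟩ := exists_ldc G hV
    exact hc.trans (le_csSup (CL_bdd G) ⟨P, hP, rfl⟩)
  have key2 : ∀ (V : Type) [Fintype V] [DecidableEq V] (G : SimpleGraph V), G.Connected →
      (∃ P : Finpartition (Finset.univ : Finset V), IsLDC G P) → 3 ≤ Fintype.card V := by
    intro V _ _ G hG ⟨P, hP⟩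
    by_contra hlt
    obtain ⟨v⟩ := hG.nonempty
    obtain ⟨X, hX, hvX⟩ := P.exists_mem (Finset.mem_univ v)
    obtain ⟨hn, Y, hY, hYX, hco⟩ := hP X hX
    obtain ⟨w, hw⟩ := P.nonempty_of_mem_parts hY
    have hvw : v ≠ w := by
      rintro rfl
      exact Finset.disjoint_left.1 hco.1 hvX hw
    -- only v and w
    have hall : ∀ u : V, u = v ∨ u = w := by
      intro u
      by_contra hc
      push Not at hc
      have : ({u, v, w} : Finset V).card = 3 := by
        rw [Finset.card_eq_three]
        exact ⟨u, v, w, hc.1, hc.2, hvw, rfl⟩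
      have h2 := Finset.card_le_univ ({u, v, w} : Finset V)
      omega
    apply hn
    refine ⟨fun u hu => ?_, fun a b ha hb hab => ?_⟩
    · have huw : u = w := by
        rcases hall u with h | h
        · exact absurd (h ▸ hvX) hu
        · exact h
      refine ⟨v, hvX, ?_⟩
      rw [huw]
      -- w is adjacent to v
      have : Nontrivial V := ⟨v, w, hvw⟩
      obtain ⟨z, hz⟩ := hG.preconnected.exists_adj_of_nontrivial w
      rcases hall z with h | h
      · rw [← h]; exact hz
      · rw [h] at hz; exact absurd hz G.irrefl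
    · exfalso
      rcases hall a with h | h
      · exact ha (h ▸ hvX)
      · rcases hall b with h' | h'
        · exact hb (h' ▸ hvX)
        · exact hab (h.trans h'.symm)
  refine ⟨key, ?_, ?_⟩
  · intro V _ _ G hG hd
    apply key
    by_contra hlt
    -- a connected graph on at most two vertices has diameter at most one
    have : G.diam ≤ 1 := by
      have := hG.nonempty
      obtain ⟨u, v, huv⟩ := SimpleGraph.exists_dist_eq_diam (G := G)
      rw [← huv]
      obtain ⟨p, hp, hl⟩ := (hG.preconnected u v).exists_path_of_dist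
      have := hp.length_lt
      omega
    omega
  · intro V _ _ G hG
    refine ⟨⟨fun h => ?_, key V G⟩, ⟨fun h => key2 V G hG h, fun h => ?_⟩⟩
    · apply key2 V G hG
      by_contra hne
      have hempty : {k : ℕ | ∃ P : Finpartition (Finset.univ : Finset V),
          IsLDC G P ∧ P.parts.card = k} = ∅ := by
        ext k
        simp only [Set.mem_ofPred_eq, Set.mem_empty_iff_false, iff_false]
        rintro ⟨P, hP, _⟩
        exact hne ⟨P, hP⟩
      unfold CL at h
      rw [hempty] at h
      simp at h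
    · obtain ⟨P, hP, _⟩ := exists_ldc G h
      exact ⟨P, hP⟩

end Pool.Agent.Results.MP_c852bb_co.AllGraphs
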